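import Pool.Agent.Helper64_FR.Final
import Pool.Agent.Helper64_FR.AdjEx
import Pool.Agent.Helper64_FR.DERP
import Pool.Agent.Helper47_FR.Der
import Pool.Agent.Helper47_FR.Up

/-!
# MP_3b0ba7_pr: spectral domination by the adjoint representation, up to finitely many irreducible
representations for each `n`, uniformly in the weighted hypergraph
-/

namespace Pool.Agent.Results.MP_3b0ba7_pr.FiniteReduction

open Pool.Agent.Helper64_FR

/-- The adjoint representation exists in the format used in `result`. -/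
theorem exists_adjoint (n : ℕ) : ∃ α : URep n, α.IsAdjoint := ⟨AdjEx.adj n, AdjEx.adj_isAdjoint n⟩

/-- For every `n ≥ 2` and `ε > 0` there is a finite set `F` of representations such that every
irreducible representation `ρ` of `U(n)` that is not isomorphic to a member of `F` satisfies, for
EVERY weighted hypergraph, `λ_min(Γ, adj) ≤ λ_min(Γ, ρ)`, and also
`w_[n] + (1 - ε) mincut(Γ) ≤ λ_min(Γ, ρ)`. -/
theorem result (n : ℕ) (hn : 2 ≤ n) (ε : ℝ) (hε : 0 < ε) :
    ∃ F : Finset (URep n), ∀ ρ : URep n, ρ.Irred → (∀ σ ∈ F, ¬ ρ.Iso σ) →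
      ∀ w : Finset (Fin n) → ℝ, (∀ B, 0 ≤ w B) →
        (∀ α : URep n, α.IsAdjoint → α.lamMin w ≤ ρ.lamMin w) ∧
        w Finset.univ + (1 - ε) * minCut n w ≤ ρ.lamMin w := by
  classical
  obtain ⟨h1, h2, F0, hF0⟩ := final_aux H47.der (DERP_proof FIX_proof) H47.up n hn
  obtain ⟨F1, hF1⟩ := h1 ε hε
  refine ⟨F0 ∪ F1, fun ρ hρ hn' w hw => ⟨fun α hα => ?_, ?_⟩⟩
  · exact hF0 ρ hρ (fun σ hσ => hn' σ (Finset.mem_union_left _ hσ)) α hα w hw
  · exact hF1 ρ hρ (fun σ hσ => hn' σ (Finset.mem_union_right _ hσ)) w hw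

end Pool.Agent.Results.MP_3b0ba7_pr.FiniteReduction
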