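import Pool.Agent.Helper94_GRB.Final

/-!
# MP_3b0ba7_pr: the adjoint representation and EVERY irreducible representation of `U(n)`,
except the trivial one and `ρ_{(2,0,...,0,-2)}`

With `b = 2`: Q1 for all weighted graphs (the unitary analogue of the Caputo - Liggett -
Richthammer theorem), for all hypergraphs on at most four vertices, and (for `ρ` other than
`ρ_{(3,0,...,0,-3)}`) for all hypergraphs whose blocks have at most two or at least `n - 1`
elements.  With `b > 2`: the comparison up to the factor `b - 1` for all hypergraphs.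
-/

namespace Pool.Agent.Results.MP_3b0ba7_pr.Graphs

open Matrix Pool.Agent.Helper64_FR Pool.Agent.BSE

/-- Let `n ≥ 2`, `w ≥ 0` a weighted hypergraph on `[n]`, `ρ` an irreducible nontrivial
representation of `U(n)` that is not isomorphic to `ρ_{(2,0,...,0,-2)}`, `b ≥ 2`, and let every
block `B` of nonzero weight have at most `b` elements, or at least `n - 1` elements, or be such
that no nonzero vector of `ρ` is fixed by `U_B` and by all `U_{i}`; if `ρ` is isomorphic to
`ρ_{(3,0,...,0,-3)}`, let moreover `n ≤ 4`, or all blocks of nonzero weight have at most `b`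
elements or be `[n]`.  Then `λ_min(Γ, adj) ≤ (b - 1) λ_min(Γ, ρ)`. -/
theorem result (n : ℕ) (hn : 2 ≤ n) (w : Finset (Fin n) → ℝ) (hw : ∀ B, 0 ≤ w B)
    (α ρ : URep n) (hα : α.IsAdjoint) (hρ : ρ.Irred) (hnt : ¬ ∀ g : UU n, ρ.mat g = 1)
    (h2 : ¬ IsBose 2 ρ) (b : ℕ) (hb : 2 ≤ b)
    (hB : ∀ B, w B ≠ 0 → B.card ≤ b ∨ n - 1 ≤ B.card ∨
      ∀ v : Fin ρ.dim → ℂ, (∀ C : Finset (Fin n), C = B ∨ C.card = 1 →
        ∀ g ∈ UB C, ρ.mat g *ᵥ v = v) → v = 0)
    (h3 : IsBose 3 ρ → n ≤ 4 ∨ ∀ B, w B ≠ 0 → B.card ≤ b ∨ B = Finset.univ) :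
    α.lamMin w ≤ ((b : ℝ) - 1) * ρ.lamMin w :=
  Pool.Agent.GRB.H94.final n hn w hw α ρ hα hρ hnt h2 b hb hB h3

end Pool.Agent.Results.MP_3b0ba7_pr.Graphs
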