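import Pool.Agent.Helper47_BSE.Fin7

/-!
# MP_3b0ba7_pr: the adjoint representation dominates every representation with exactly one positive
(or exactly one negative) entry, except `(3,0,...,0,-3)`, for every weighted hypergraph

`RowSpace n k` is the traceless part of `Sym^k V ⊗ (V*)^{⊗k}`, `V = ℂⁿ`, realised in functions of `k`
matrices; its irreducible subrepresentations are the `ρ_{(k,0,...,0,-β_l,...,-β_1)}`, `β` a partition
of `k` with at most `n - 1` parts. `IsRow k ρ`: `ρ` embeds into it. `IsRowNS k ρ`: `ρ` embeds into the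
part of it on which the symmetrization over the `k` matrices vanishes (`β ≠ (k)`).
-/

namespace Pool.Agent.Results.MP_3b0ba7_pr.OneEntry

open Pool.Agent.Helper64_FR Pool.Agent.BSE

/-- For every `n ≥ 2`, every weighted hypergraph `w ≥ 0` on `[n]`, and every representation `ρ ≠ 0`
of `U(n)` such that `ρ` or its dual embeds into `RowSpace n k` with `k ≥ 4`, or into the not totally
symmetric part of `RowSpace n k` with `k = 2, 3`: `λ_min(Γ, adj) ≤ λ_min(Γ, ρ)`. -/
theorem result (n : ℕ) (hn : 2 ≤ n) (k : ℕ)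
    (w : Finset (Fin n) → ℝ) (hw : ∀ B, 0 ≤ w B)
    (α ρ : URep n) (hα : α.IsAdjoint) (hd : 0 < ρ.dim)
    (hρ : (4 ≤ k ∧ (IsRow k ρ ∨ IsRow k (cj ρ))) ∨
      ((k = 2 ∨ k = 3) ∧ (IsRowNS k ρ ∨ IsRowNS k (cj ρ)))) :
    α.lamMin w ≤ ρ.lamMin w :=
  Pool.Agent.BSE.H47.all_final n hn k w hw α ρ hα hd hρ

end Pool.Agent.Results.MP_3b0ba7_pr.OneEntry
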