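import Pool.Agent.Helper37_UTI.Asm

/-!
# MP_3b0ba7_pr: for every weighted tree, forest and interval hypergraph the adjoint
representation dominates every nontrivial irreducible representation of `U(n)`

`OneOn w S μ` is the one-body inequality for the trace `B ↦ B ∩ S` of the hypergraph on the vertex set
`S`, `Chain w μ univ` says that it holds for all sets `S_2 ⊂ S_3 ⊂ ... ⊂ S_n = [n]` of a maximal chain of
vertex sets. `Bld w univ`: the hypergraph can be built vertex by vertex, where in the trace on the
vertices up to it the new vertex is a leaf (it lies in at most one block with at least two elements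
besides the whole set) or the last vertex of a weak order of which all blocks are modules (a vertex
outside of the block is below all its vertices, above all of them, or level with all of them). Weighted
forests and interval hypergraphs are examples, see (3) and (4).
-/

namespace Pool.Agent.Results.MP_3b0ba7_pr.Trees

open Pool.Agent.Helper64_FR Pool.Agent.UTR Pool.Agent.UTI

/-- Let `w ≥ 0` be a weighted hypergraph on `[n]`, `n ≥ 2`, `ρ` an irreducible nontrivial
representation of `U(n)` and `α` the adjoint representation.
(1) If the one-body inequality holds with the constant `μ` for the traces on all vertex sets of a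
maximal chain, then `μ ≤ λ_min(Γ, ρ)`.
(2) If `w` can be built from leaves and last vertices (`Bld`), then `λ_min(Γ, α) ≤ λ_min(Γ, ρ)`.
(3) If the blocks with at least two elements and nonzero weight are edges of a forest, then
`λ_min(Γ, α) ≤ λ_min(Γ, ρ)`.
(4) If all blocks of nonzero weight are intervals (contiguous sets) of a linear order of the vertices,
then `λ_min(Γ, α) ≤ λ_min(Γ, ρ)`. -/
theorem result (n : ℕ) (hn : 2 ≤ n) (w : Finset (Fin n) → ℝ) (hw : ∀ B, 0 ≤ w B)
    (α ρ : URep n) (hα : α.IsAdjoint) (hρ : ρ.Irred) (hnt : ¬ ∀ g : UU n, ρ.mat g = 1) :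
    (∀ μ : ℝ, Chain w μ Finset.univ → μ ≤ ρ.lamMin w) ∧
    (Bld w Finset.univ → α.lamMin w ≤ ρ.lamMin w) ∧
    (∀ G : SimpleGraph (Fin n), G.IsAcyclic →
      (∀ B, w B ≠ 0 → 2 ≤ B.card → ∃ i j, G.Adj i j ∧ B = {i, j}) →
      α.lamMin w ≤ ρ.lamMin w) ∧
    (∀ e : Fin n → ℕ, Function.Injective e →
      (∀ B, w B ≠ 0 → ∀ i ∈ B, ∀ k ∈ B, ∀ j, e i < e j → e j < e k → j ∈ B) →
      α.lamMin w ≤ ρ.lamMin w) :=
  Pool.Agent.UTI.main n hn w hw α ρ hα hρ hnt

end Pool.Agent.Results.MP_3b0ba7_pr.Trees
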